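import Pool.Agent.U866.OM.Stm

/-!
# Project OM, package ZERO
-/

set_option autoImplicit false

namespace Pool.Agent.U141.OM

open Pool.Agent.H498R3.GB Pool.Agent.U866.OM
open scoped BigOperators ContDiff Topology Matrix
open MeasureTheory Filter Metric

lemma gpt_zero {m : ℕ} (v : E m → ℝ) (z : E m) : gpt v z 0 = v z := rfl

lemma gpt_succ {m : ℕ} (v : E m → ℝ) (z : E m) (j : Fin m) : gpt v z j.succ = z j := rfl

theorem t_ZERO : S_ZERO := by
  intro m G v _ hG
  funext y
  ext i j
  have h1 : ∀ (a b : Fin (m + 1)), (1 : Matrix (Fin (m + 1)) (Fin (m + 1)) ℝ) a b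
      = if a = b then 1 else 0 := fun a b => Matrix.one_apply
  simp only [fam, euc, Matrix.of_apply, zero_smul, hG, h1]
  have h2 : ∀ a : Fin (m + 1), ∑ b, (if a = b then (1 : ℝ) else 0) * pd i (fun z => gpt v z a) y *
      pd j (fun z => gpt v z b) y = pd i (fun z => gpt v z a) y * pd j (fun z => gpt v z a) y := by
    intro a
    rw [Finset.sum_eq_single a]
    · simp
    · intro b _ hb
      rw [if_neg (Ne.symm hb)]
      ring
    · intro h; exact absurd (Finset.mem_univ a) h
  simp_rw [h2]
  rw [Fin.sum_univ_succ]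
  simp only [gpt_zero, gpt_succ, pd_coord, Matrix.one_apply]
  rw [Finset.sum_eq_single i]
  · by_cases hij : i = j
    · subst hij; simp; ring
    · rw [if_neg hij, if_pos rfl]
      rw [if_neg (Ne.symm hij)]
      ring
  · intro b _ hb
    rw [if_neg (Ne.symm hb)]
    ring
  · intro h; exact absurd (Finset.mem_univ i) h

end Pool.Agent.U141.OM
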